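import Pool.Agent.W826.PB.ZO
import Pool.Agent.W925.PB.Russo
import Pool.Agent.W403.PB.Bridge
import Pool.Agent.W768.PB.Local
import Pool.Agent.W356.PB.Trans
set_option autoImplicit false

/-!
MP_faaa3e_pr: sharpness of the transition and a zero-one law at every exponent `α` for polluted
bootstrap percolation, every dimension and threshold (in particular `d = r`), and a criterion for
`phi → 1` as `(p, q) → (0, 0)`.
-/

namespace Pool.Agent.Results.MP_faaa3e_pr.ZeroOneLaw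
open Pool.Agent.W826.PB Filter Topology

/-- For every dimension `d` and threshold `r`:
(1) for every real `α`, either `phi → 0` at `α`, or there are sequences with exponent `α` along
which `phi → 1`;
(2) if `0 < p ≤ 1 - q`, `K ≥ 1`, `K p < 1` and `0 ≤ q' ≤ (1 - K p) q / (1 + K phi(p, q))`, then
`phi(K p, q') ≥ 1 - 1 / (1 + K phi(p, q))`;
(3) `phi → 1` as `(p, q) → (0, 0)` if and only if `q_c > 0`. -/
theorem result (d r : ℕ) :
    (∀ α : ℝ,
      (∀ p q : ℕ → ℝ, Seqs α p q → Tendsto (fun n => phi d r (p n) (q n)) atTop (𝓝 0)) ∨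
      (∃ p q : ℕ → ℝ, Seqs α p q ∧ Tendsto (fun n => phi d r (p n) (q n)) atTop (𝓝 1))) ∧
    (∀ p q q' K : ℝ, 0 < p → 0 ≤ q → p ≤ 1 - q → 1 ≤ K → K * p < 1 → 0 ≤ q' →
      q' ≤ (1 - K * p) * q / (1 + phi d r p q * K) →
      1 - 1 / (1 + phi d r p q * K) ≤ phi d r (K * p) q') ∧
    (Tendsto (fun z : ℝ × ℝ => phi d r z.1 z.2)
      (𝓝[{z | 0 < z.1 ∧ 0 ≤ z.2 ∧ z.1 + z.2 ≤ 1}] (0, 0)) (𝓝 1) ↔ 0 < qc d r) :=
  ⟨fun α => zero_one Pool.Agent.W403.PB.main Pool.Agent.W768.PB.main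
      Pool.Agent.W356.PB.Trans.main Pool.Agent.W925.PB.Russo.main d r α,
    fun _ _ _ _ h1 h2 h3 h4 h5 h6 h7 => sharp Pool.Agent.W403.PB.main Pool.Agent.W768.PB.main
      Pool.Agent.W356.PB.Trans.main Pool.Agent.W925.PB.Russo.main d r h1 h2 h3 h4 h5 h6 h7,
    tendsto_one_iff Pool.Agent.W403.PB.main Pool.Agent.W768.PB.main
      Pool.Agent.W356.PB.Trans.main Pool.Agent.W925.PB.Russo.main d r⟩

end Pool.Agent.Results.MP_faaa3e_pr.ZeroOneLaw
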